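import Pool.Agent.H24.L5.Stmts

/-!
# L5, row MBI: the maximal inequality for rounded linear images
-/

set_option autoImplicit false

namespace Pool.L5

open Finset Real
open Pool.Agent.H49.Ent Pool.Agent.H32.Dense Pool.STK Pool.KA Pool.GP Pool.KRN

variable {m j J : ℕ}

/-- The rounded image of a family under a linear map, with new side information. -/
noncomputable def rimg (F : Pool.KA.Fam m J) (M : Fin j → Fin m → ℝ)
    (hM : ∀ l, ∑ s, |M l s| ≤ 1) {κ : Type} (z : F.Ω → κ) : Pool.KA.Fam j J where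
  Ω := F.Ω
  ζ := κ
  fin := F.fin
  p := F.p
  u := fun ω l => (fl J (mv M (F.u ω)) l : ℝ) / 2 ^ J
  d := fun ω l => (fl J (mv M (F.d ω)) l : ℝ) / 2 ^ J
  T := F.T
  Z := z
  isLaw := F.isLaw
  dir := fun ω l => by
    have h1 := abs_le.mp (abs_mv_le hM zero_le_one (F.dir ω) l)
    have h3 : (0 : ℝ) < 2 ^ J := by positivity
    have h4 : -(2 ^ J : ℤ) ≤ ⌊2 ^ J * mv M (F.d ω) l⌋ := by
      rw [Int.le_floor]
      push_cast
      nlinarith
    have h5 : ⌊2 ^ J * mv M (F.d ω) l⌋ ≤ (2 ^ J : ℤ) := by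
      have h6 := Int.floor_le (2 ^ J * mv M (F.d ω) l)
      have h7 : 2 ^ J * mv M (F.d ω) l ≤ 2 ^ J := by nlinarith
      have h8 := h6.trans h7
      exact_mod_cast h8
    have h6 : -(2 ^ J : ℝ) ≤ ((⌊2 ^ J * mv M (F.d ω) l⌋ : ℤ) : ℝ) := by exact_mod_cast h4
    have h7 : ((⌊2 ^ J * mv M (F.d ω) l⌋ : ℤ) : ℝ) ≤ 2 ^ J := by exact_mod_cast h5
    rw [fl_apply, abs_div, abs_of_pos h3, div_le_one h3, abs_le]
    exact ⟨h6, h7⟩
  tim := F.tim

lemma fl_rimg (x : Fin j → ℤ) : fl J (fun l => (x l : ℝ) / 2 ^ J) = x := by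
  funext l
  rw [fl_apply]
  have h3 : (0 : ℝ) < 2 ^ J := by positivity
  rw [mul_div_cancel₀ _ h3.ne']
  exact Int.floor_intCast _

theorem mbi : MBIStmt := by
  intro j β hβ hMB ε hε
  obtain ⟨J₀, h0⟩ := hMB (ε / 2) (by positivity)
  obtain ⟨J₁, hJ₁⟩ := exists_nat_ge (j * Real.log 7 / (ε / 2))
  refine ⟨max J₀ J₁, fun J hJ m F M hM S z => ?_⟩
  have h1 := h0 J (le_trans (le_max_left _ _) hJ) (rimg F M hM z)
  have hn := F.isLaw.nonneg
  have hJr : (J₁ : ℝ) ≤ J := by exact_mod_cast (le_max_right _ _).trans hJ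
  have hc : j * Real.log 7 ≤ ε / 2 * J := by
    have h2 := hJ₁.trans hJr
    rw [div_le_iff₀ (by positivity)] at h2
    linarith
  have hD : (rimg F M hM z).D J = fun ω => fl J (mv M (F.d ω)) := by
    funext ω
    exact fl_rimg _
  have hT : CH F.p F.T (fun ω => ((rimg F M hM z).l ω, z ω)) =
      CH F.p F.T (fun ω => (Lb F M ω, z ω)) := by
    have k : ∀ ω ω' : F.Ω, (rimg F M hM z).l ω = (rimg F M hM z).l ω' ↔ Lb F M ω = Lb F M ω' := by
      intro ω ω'
      have h3 : (2 : ℝ) ^ J ≠ 0 := by positivity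
      constructor
      · intro h
        have e1 := (Prod.ext_iff.mp h).1
        have e2 := (Prod.ext_iff.mp h).2
        refine Prod.ext ?_ ?_
        · funext l
          have := congrFun e1 l
          change (fl J (mv M (F.u ω)) l : ℝ) / 2 ^ J = (fl J (mv M (F.u ω')) l : ℝ) / 2 ^ J at this
          rw [div_left_inj' h3] at this
          exact_mod_cast this
        · funext l
          have := congrFun e2 l
          change (fl J (mv M (F.d ω)) l : ℝ) / 2 ^ J = (fl J (mv M (F.d ω')) l : ℝ) / 2 ^ J at this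
          rw [div_left_inj' h3] at this
          exact_mod_cast this
      · intro h
        have e1 : fl J (mv M (F.u ω)) = fl J (mv M (F.u ω')) := (Prod.ext_iff.mp h).1
        have e2 : fl J (mv M (F.d ω)) = fl J (mv M (F.d ω')) := (Prod.ext_iff.mp h).2
        change ((fun l => (fl J (mv M (F.u ω)) l : ℝ) / 2 ^ J),
          (fun l => (fl J (mv M (F.d ω)) l : ℝ) / 2 ^ J)) =
          ((fun l => (fl J (mv M (F.u ω')) l : ℝ) / 2 ^ J),
          (fun l => (fl J (mv M (F.d ω')) l : ℝ) / 2 ^ J))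
        rw [e1, e2]
    refine CH_congr hn (fun ω ω' _ _ h => (Prod.ext_iff.mp h).1)
      (fun ω ω' _ _ h => (Prod.ext_iff.mp h).1) ?_ ?_
    · intro ω ω' _ _ h
      have e := Prod.ext_iff.mp h
      exact Prod.ext ((k ω ω').mp e.1) e.2
    · intro ω ω' _ _ h
      have e := Prod.ext_iff.mp h
      exact Prod.ext ((k ω ω').mpr e.1) e.2
  have hX : CH F.p (fun ω => ((rimg F M hM z).X J ω, F.T ω)) z ≤
      CH F.p (fun ω => (fl J (mv M (F.x ω)), F.T ω)) z + j * Real.log 7 := by
    have k1 := CH_le_add hn (fun ω => ((rimg F M hM z).X J ω, F.T ω))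
      (fun ω => (fl J (mv M (F.x ω)), F.T ω)) z
    have k2 := CH_mono_left hn (X' := (rimg F M hM z).X J)
      (X := fun ω => ((rimg F M hM z).X J ω, F.T ω))
      (W := fun ω => ((fl J (mv M (F.x ω)), F.T ω), z ω)) (fun ω ω' _ _ h => by
        simp only [Prod.mk.injEq] at h
        exact Prod.ext h.1 h.2.1.2)
    have k3 := CH_near (m := j) F.isLaw ((rimg F M hM z).X J)
      (fun ω => ((fl J (mv M (F.x ω)), F.T ω), z ω)) 3 (by
        intro ω ω' h l
        simp only [Prod.mk.injEq] at h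
        have e : ∀ ω, (rimg F M hM z).X J ω l =
            ⌊(fl J (mv M (F.u ω)) l : ℝ) + F.t ω * (fl J (mv M (F.d ω)) l : ℝ)⌋ := by
          intro ω
          change ⌊(2 : ℝ) ^ J * ((fl J (mv M (F.u ω)) l : ℝ) / 2 ^ J +
            F.t ω * ((fl J (mv M (F.d ω)) l : ℝ) / 2 ^ J))⌋ = _
          congr 1
          have h3 : (2 : ℝ) ^ J ≠ 0 := by positivity
          field_simp
        have e2 : ∀ ω, 2 ^ J * mv M (F.x ω) l =
            2 ^ J * mv M (F.u ω) l + F.t ω * (2 ^ J * mv M (F.d ω) l) := by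
          intro ω
          have : mv M (F.x ω) l = mv M (F.u ω) l + F.t ω * mv M (F.d ω) l := by
            rw [← mv_add_smul]
            rfl
          rw [this]
          ring
        have ht : ∀ ω, 0 ≤ F.t ω ∧ F.t ω ≤ 1 := by
          intro ω
          unfold Pool.KA.Fam.t
          refine ⟨by positivity, ?_⟩
          rw [div_le_one (by positivity)]
          exact_mod_cast (F.tim ω).le
        have hb : ∀ ω, (fl J (mv M (F.u ω)) l : ℝ) + F.t ω * (fl J (mv M (F.d ω)) l : ℝ) ≤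
              2 ^ J * mv M (F.x ω) l ∧
            2 ^ J * mv M (F.x ω) l <
              (fl J (mv M (F.u ω)) l : ℝ) + F.t ω * (fl J (mv M (F.d ω)) l : ℝ) + 2 := by
          intro ω
          rw [e2, fl_apply, fl_apply]
          have h1 := Int.floor_le (2 ^ J * mv M (F.u ω) l)
          have h2 := Int.lt_floor_add_one (2 ^ J * mv M (F.u ω) l)
          have h3 := Int.floor_le (2 ^ J * mv M (F.d ω) l)
          have h4 := Int.lt_floor_add_one (2 ^ J * mv M (F.d ω) l)
          obtain ⟨h5, h6⟩ := ht ω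
          constructor <;> nlinarith
        have h7 := abs_lt.mp (abs_of_fl h.1.1 l)
        have h8 := hb ω
        have h9 := hb ω'
        rw [e, e]
        refine floor_near ?_
        rw [abs_lt]
        push_cast
        constructor <;> linarith [h7.1, h7.2, h8.1, h8.2, h9.1, h9.2])
    have k4 : (2 * ((3 : ℕ) : ℝ) + 1) = 7 := by norm_num
    rw [k4] at k3
    linarith
  unfold Bd
  rw [hD] at h1
  change CH F.p (fun ω => fl J (mv M (F.d ω))) z + (J : ℝ) * Real.log 2 -
    CH F.p (fun ω => ((rimg F M hM z).X J ω, F.T ω)) z ≤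
      β * ((J : ℝ) * Real.log 2 - CH F.p F.T (fun ω => ((rimg F M hM z).l ω, z ω))) +
        ε / 2 * J at h1
  rw [hT] at h1
  linarith

end Pool.L5
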